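import Pool.Agent.H.MP_084a52_an.B

set_option autoImplicit false
open Set Filter Topology MeasureTheory Metric Complex
open scoped ContDiff ENNReal

namespace Pool.Agent.Results.MP_084a52_an.No

/-- `f` has finite distortion on `Ω`, with weak differential `A`. -/
def FD (Ω : Set ℂ) (f : ℂ → ℂ) (A : ℂ → ℂ →L[ℝ] ℂ) : Prop :=
  LocallyIntegrableOn f Ω ∧ LocallyIntegrableOn A Ω ∧
  (∀ φ : ℂ → ℝ, ContDiff ℝ ∞ φ → HasCompactSupport φ → tsupport φ ⊆ Ω → ∀ v,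
    ∫ x in Ω, fderiv ℝ φ x v • f x = -∫ x in Ω, φ x • A x v) ∧
  LocallyIntegrableOn (fun x => (A x).det) Ω ∧
  ∃ K : ℂ → ℝ, ∀ᵐ x ∂volume.restrict Ω, 1 ≤ K x ∧ ‖A x‖ ^ 2 ≤ K x * (A x).det

/-- The Hilbert-Schmidt distortion of a real linear map of the plane. -/
noncomputable def KK (A : ℂ →L[ℝ] ℂ) : ℝ :=
  if 0 < A.det then (‖A 1‖ ^ 2 + ‖A I‖ ^ 2) / 2 / A.det else 1

/-- `f` is a homeomorphism of `Ω` onto `Ω'`. -/
def Hom (Ω Ω' : Set ℂ) (f : ℂ → ℂ) : Prop :=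
  ∃ g : ℂ → ℂ, MapsTo f Ω Ω' ∧ MapsTo g Ω' Ω ∧ InvOn g f Ω Ω' ∧ ContinuousOn f Ω ∧ ContinuousOn g Ω'

/-- The energy. -/
noncomputable def En (p : ℝ) (Ω : Set ℂ) (A : ℂ → ℂ →L[ℝ] ℂ) : ℝ≥0∞ :=
  ∫⁻ x in Ω, ENNReal.ofReal (KK (A x) ^ p)

open Pool.Agent.H.MP_084a52_an

lemma hs (A : ℂ →L[ℝ] ℂ) : ‖A 1‖ ^ 2 + ‖A I‖ ^ 2 = 2 * A.det + ‖A I - I * A 1‖ ^ 2 := by
  simp only [← normSq_eq_norm_sq, det_eq]; simp [normSq_apply]; ring

lemma KK1 (A : ℂ →L[ℝ] ℂ) : 1 ≤ KK A := by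
  unfold KK; split_ifs with h
  · rw [one_le_div h, hs]; linarith [sq_nonneg ‖A I - I * A 1‖]
  · rfl

lemma good (k : ℕ) : Hom O O' (f k) ∧ FD O (f k) (fderiv ℝ (f k)) ∧
    ∀ z ∈ O, KK (fderiv ℝ (f k) z) ≤ tt k z := by
  have mo := O_open.measurableSet
  have c := (fs k).continuousOn_fderiv_of_isOpen O_open le_rfl
  refine ⟨⟨g k, fm k, gm k, gf k, (fs k).continuousOn, gc k⟩, ⟨(fs k).continuousOn.locallyIntegrableOn mo,
    c.locallyIntegrableOn mo, fun φ h1 h2 h3 => wk O_open (fs k) h1 h2 h3,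
    (ContinuousLinearMap.continuous_det.comp_continuousOn c).locallyIntegrableOn mo,
    fun z => max 1 (‖fderiv ℝ (f k) z‖ ^ 2 / (fderiv ℝ (f k) z).det),
    (ae_restrict_mem mo).mono fun z hz => ⟨le_max_left _ _, ?_⟩⟩, fun z hz => ?_⟩
  all_goals
    obtain ⟨N, N0, a, b⟩ := fd k hz
    have := tt1 k z
    have d : 0 < (fderiv ℝ (f k) z).det := by rw [a]; positivity
  · exact (div_le_iff₀ d).1 (le_max_right _ _)
  · rw [KK, if_pos d, div_le_iff₀ d, a, b]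
    nlinarith [mul_nonneg N0.le (by nlinarith : 0 ≤ tt k z ^ 2 - 1)]

theorem result : ∃ Ω Ω' : Set ℂ, IsOpen Ω ∧ IsConnected Ω ∧ ¬ IsSimplyConnected Ω ∧
    IsOpen Ω' ∧ IsConnected Ω' ∧ ¬ IsSimplyConnected Ω' ∧ ∀ p : ℝ, 1 < p →
      (∃ g A, Hom Ω Ω' g ∧ FD Ω g A ∧ En p Ω A < ⊤) ∧
      ∀ f A, Hom Ω Ω' f → FD Ω f A → ∃ h B, Hom Ω Ω' h ∧ FD Ω h B ∧ En p Ω B < En p Ω A := by
  refine ⟨O, O', O_open, O_conn, O_nsc, O'_open, O'_conn, O'_nsc, fun p hp => ?_⟩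
  have mo := O_open.measurableSet
  have p0 : 0 < p := by linarith
  have fin : volume O < ⊤ := (measure_mono inter_subset_left).trans_lt measure_ball_lt_top
  have key : ∀ b, volume O < b → ∃ h B, Hom O O' h ∧ FD O h B ∧ En p O B < b := fun b hb => by
    obtain ⟨k, hk⟩ := ((lim p0.le).eventually (gt_mem_nhds hb)).exists
    refine ⟨_, _, (good k).1, (good k).2.1, lt_of_le_of_lt (setLIntegral_mono' mo fun z hz => ?_) hk⟩
    exact ENNReal.ofReal_le_ofReal (Real.rpow_le_rpow (zero_le_one.trans (KK1 _)) ((good k).2.2 z hz) p0.le)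
  refine ⟨key _ fin, fun F A ⟨G, m1, m2, iv, c1, c2⟩ ⟨_, lA, H, _, K, hK⟩ => key _ (not_le.1 fun le => ?_)⟩
  have mA := lA.aestronglyMeasurable
  have mK : AEMeasurable (fun x => ENNReal.ofReal (KK (A x) ^ p)) (volume.restrict O) := by
    have a := (ContinuousLinearMap.continuous_det.comp_aestronglyMeasurable mA).aemeasurable
    have b := fun v => (mA.apply_continuousLinearMap v).aemeasurable
    obtain ⟨d, d1, d2⟩ := a
    obtain ⟨b1, b2, b3⟩ := b 1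
    obtain ⟨e1, e2, e3⟩ := b I
    refine ⟨fun x => ENNReal.ofReal ((if 0 < d x then (‖b1 x‖ ^ 2 + ‖e1 x‖ ^ 2) / 2 / d x else 1) ^ p),
      ((Measurable.ite (measurableSet_lt measurable_const d1) (by fun_prop) measurable_const).pow_const
        p).ennreal_ofReal, ?_⟩
    filter_upwards [d2, b3, e3] with x h1 h2 h3
    simp only [KK, h1, h2, h3]
  have e := ae_eq_of_ae_le_of_lintegral_le (f := fun _ => 1) (.of_forall fun x =>
    ENNReal.one_le_ofReal.2 (Real.one_le_rpow (KK1 (A x)) p0.le)) (by simpa using fin.ne) mK (by simpa [En] using le)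
  have cr : ∀ᵐ x ∂volume.restrict O, A x I = I * A x 1 := by
    filter_upwards [e, hK] with x h1 h2
    have k : KK (A x) ≤ 1 := not_lt.1 fun j =>
      (ENNReal.one_lt_ofReal.2 (Real.one_lt_rpow j p0)).ne h1
    unfold KK at k
    split_ifs at k with h
    · rw [div_le_one h, hs] at k
      exact sub_eq_zero.1 (norm_eq_zero.1 (by nlinarith [norm_nonneg (A x I - I * A x 1)]))
    · have : ‖A x‖ = 0 := by nlinarith [norm_nonneg (A x), h2.1, h2.2, not_lt.1 h]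
      simp [norm_eq_zero.1 this]
  have hol := weyl O_open c1 fun φ h1 h2 h3 => by
    rw [H φ h1 h2 h3, H φ h1 h2 h3, smul_neg, ← integral_smul]
    congr 1
    exact integral_congr_ae (cr.mono fun x hx => by simp only [hx, smul_eq_mul, mul_smul_comm])
  refine noconf (φ := fun w => F (E w)) (ψ := fun w => L (G w)) (fun w hw => ?_) (fun w hw => m1 (EO hw))
    (Lc.comp c2 fun w hw => (m2 hw).1) (fun w hw => by simp only [iv.1 (EO hw), LE hw.1])
    fun w hw => (mO.1 (m2 hw)).2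
  exact ((hol.differentiableAt (O_open.mem_nhds (EO hw))).comp w (Ed hw.1).differentiableAt).differentiableWithinAt

end Pool.Agent.Results.MP_084a52_an.No
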